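import Pool.Agent.H95.FJ.Defs

/-!
Part LOC of the crew FJ (MP_ce7760_an).
-/

set_option autoImplicit false

namespace H85.FJ

open H95.FJ

lemma pick {n s : ℕ} (T : Fin s → (Vn n →ₗ[ℂ] Vn n)) (I : Submodule ℂ (Vn n)) (w : Vn n) :
    ∃ a : Fin (Module.finrank ℂ ((EE T w).map I.mkQ)) → Fin s,
      LinearIndependent ℂ (fun i => I.mkQ (T (a i) w)) := by
  have h : (EE T w).map I.mkQ = Submodule.span ℂ (Set.range fun a => I.mkQ (T a w)) := by
    unfold EE
    rw [Submodule.map_span, ← Set.range_comp]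
    rfl
  obtain ⟨f, hf1, hf2, hf3⟩ :=
    Submodule.exists_fun_fin_finrank_span_eq ℂ (Set.range fun a => I.mkQ (T a w))
  rw [h]
  choose a ha using hf1
  refine ⟨a, ?_⟩
  have : (fun i => I.mkQ (T (a i) w)) = f := funext fun i => ha i
  rw [this]
  exact hf3

lemma low {n s q : ℕ} (T : Fin s → (Vn n →ₗ[ℂ] Vn n)) (I : Submodule ℂ (Vn n)) (u : Vn n)
    (b : Fin q → Fin s) (h : LinearIndependent ℂ (fun i => I.mkQ (T (b i) u))) :
    q ≤ Module.finrank ℂ ((EE T u).map I.mkQ) := by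
  have h1 := finrank_span_eq_card h
  rw [Fintype.card_fin] at h1
  rw [← h1]
  refine Submodule.finrank_mono ?_
  rw [Submodule.span_le]
  rintro _ ⟨i, rfl⟩
  exact Submodule.mem_map_of_mem (Submodule.subset_span ⟨b i, rfl⟩)

lemma dim_sup {n : ℕ} (R E : Submodule ℂ (Vn n)) :
    Module.finrank ℂ ↥(E ⊔ R) = Module.finrank ℂ (E.map R.mkQ) + Module.finrank ℂ R := by
  have h1 := LinearMap.finrank_range_add_finrank_ker (R.mkQ.domRestrict (E ⊔ R))
  have h2 : LinearMap.range (R.mkQ.domRestrict (E ⊔ R)) = E.map R.mkQ := by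
    rw [LinearMap.range_domRestrict, Submodule.map_sup]
    have : R.map R.mkQ = ⊥ := by
      exact Submodule.mkQ_map_self R
    rw [this, sup_bot_eq]
  have h3 : Module.finrank ℂ (LinearMap.ker (R.mkQ.domRestrict (E ⊔ R))) =
      Module.finrank ℂ R := by
    rw [LinearMap.ker_domRestrict, Submodule.ker_mkQ]
    exact LinearEquiv.finrank_eq (Submodule.submoduleOfEquivOfLe le_sup_right)
  rw [h2, h3] at h1
  exact h1.symm

theorem t_LOC (hSEML : S_SEML) (hOPEN : S_OPEN) : S_LOC := by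
  intro n s e T hmax z hz c hcz w hcw
  by_contra hcon
  push Not at hcon
  set R := LinearMap.range (TT T c) with hR
  obtain ⟨a, ha⟩ := pick T R w
  obtain ⟨b, hb⟩ := pick T ⊥ z
  have f1 := hSEML n _ (fun i => T (a i)) R w z ha
  have f2 := hSEML n _ (fun i => T (b i)) ⊥ z w hb
  have f3 : ((fun t : ℂ => 1 - t) ⁻¹' {t : ℂ | ¬ LinearIndependent ℂ
      (fun i => (⊥ : Submodule ℂ (Vn n)).mkQ (T (b i) (z + t • (w - z))))}).Finite :=
    f2.preimage (fun x _ y _ hxy => by
      have : (1 : ℂ) - x = 1 - y := hxy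
      exact sub_right_injective this)
  obtain ⟨t, ht⟩ := ((f1.union f3).infinite_compl).nonempty
  rw [Set.mem_compl_iff, Set.mem_union, not_or] at ht
  obtain ⟨t1, t2⟩ := ht
  simp only [Set.mem_setOf_eq, not_not, Set.mem_preimage] at t1 t2
  obtain ⟨u, hu⟩ : ∃ u, u = w + t • (z - w) := ⟨_, rfl⟩
  have hu2 : z + (1 - t) • (w - z) = u := by
    rw [hu]
    module
  rw [← hu] at t1
  rw [hu2] at t2
  have hcu : TT T c u = 0 := by
    rw [hu, map_add, map_smul, map_sub, hcz, hcw]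
    simp
  have h1 := low T R u a t1
  have h2 := low T ⊥ u b t2
  have hE : ∀ v, Module.finrank ℂ ((EE T v).map (⊥ : Submodule ℂ (Vn n)).mkQ) =
      Module.finrank ℂ (EE T v) := by
    intro v
    have := dim_sup ⊥ (EE T v)
    rw [sup_bot_eq, finrank_bot, add_zero] at this
    exact this.symm
  rw [hE, hE] at h2
  have hopen := hOPEN n s e T hmax u (hz.trans h2) c hcu
  have hRle : R ≤ EE T u := by
    rintro _ ⟨v, rfl⟩
    exact hopen v
  have h3 := dim_sup R (EE T w)
  have h4 := dim_sup R (EE T u)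
  rw [sup_eq_left.2 hRle] at h4
  have h5 := hmax u
  omega

end H85.FJ
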